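import Pool.Agent.Helper74.DI.StM

set_option autoImplicit false

namespace Pool.Agent.Helper30.DI

open Pool.Agent.Helper74 Pool.Agent.Helper74.DI

private lemma lpa_aux (s : Bool) (μ : ℕ) (x : Bool) (o : Bool → Bool) (v : Bool → ℕ) (a : ℕ)
    (hv : v x ≤ μ) :
    (idc s μ x o (up (!x) a v)).2 (!x) = a ∧ (idc s μ x o (up (!x) a v)).2 x ≤ μ ∧
    ((idc s μ x o (up (!x) a v)).2 x : ZMod (μ + 1)) =
      (v x : ZMod (μ + 1)) + (if s then 1 else -1) := by
  have hx : x ≠ !x := by cases x <;> decide
  have hx' : (!x) ≠ x := hx.symm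
  have hux : up (!x) a v x = v x := if_neg hx
  have hunx : up (!x) a v (!x) = a := if_pos rfl
  have hz : ((μ : ℕ) : ZMod (μ + 1)) + 1 = 0 := by
    have h := ZMod.natCast_self (μ + 1)
    push_cast at h
    exact h
  cases s with
  | true =>
    unfold idc
    rw [if_pos rfl]
    unfold inc
    rw [hux]
    by_cases h : v x = μ
    · rw [if_pos h]
      refine ⟨?_, ?_, ?_⟩
      · change up x 0 (up (!x) a v) (!x) = a
        rw [up, if_neg hx', hunx]
      · change up x 0 (up (!x) a v) x ≤ μ
        rw [up, if_pos rfl]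
        exact Nat.zero_le _
      · change ((up x 0 (up (!x) a v) x : ℕ) : ZMod (μ + 1)) = _
        rw [up, if_pos rfl, h, if_pos rfl, hz, Nat.cast_zero]
    · rw [if_neg h]
      refine ⟨?_, ?_, ?_⟩
      · change up x (v x + 1) (up (!x) a v) (!x) = a
        rw [up, if_neg hx', hunx]
      · change up x (v x + 1) (up (!x) a v) x ≤ μ
        rw [up, if_pos rfl]
        omega
      · change ((up x (v x + 1) (up (!x) a v) x : ℕ) : ZMod (μ + 1)) = _
        rw [up, if_pos rfl, if_pos rfl]
        push_cast
        rfl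
  | false =>
    unfold idc
    rw [if_neg (by decide)]
    unfold dec
    rw [hux]
    by_cases h : v x = 0
    · rw [if_pos h]
      refine ⟨?_, ?_, ?_⟩
      · change up x μ (up (!x) a v) (!x) = a
        rw [up, if_neg hx', hunx]
      · change up x μ (up (!x) a v) x ≤ μ
        rw [up, if_pos rfl]
      · change ((up x μ (up (!x) a v) x : ℕ) : ZMod (μ + 1)) = _
        rw [up, if_pos rfl, h, if_neg (by decide), Nat.cast_zero, zero_add]
        exact eq_neg_of_add_eq_zero_left hz
    · rw [if_neg h]
      refine ⟨?_, ?_, ?_⟩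
      · change up x (v x - 1) (up (!x) a v) (!x) = a
        rw [up, if_neg hx', hunx]
      · change up x (v x - 1) (up (!x) a v) x ≤ μ
        rw [up, if_pos rfl]
        omega
      · change ((up x (v x - 1) (up (!x) a v) x : ℕ) : ZMod (μ + 1)) = _
        rw [up, if_pos rfl, if_neg (by decide), Nat.cast_sub (by omega)]
        push_cast
        ring

/-- LPA: the first loop. -/
theorem hLPA (hSTC : StSTC) : StLPA := by
  intro w x s e j μ hμ a
  induction a with
  | zero =>
    intro o v t hv hvr hta
    refine ⟨o, v, ?_, hv, hvr x, ?_⟩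
    · rw [Nat.add_zero]
      exact rch_step _ _ _ ((hSTC w x s e o j v t μ hvr (by omega) hμ).1 hv)
    · rw [Nat.cast_zero, mul_zero, add_zero]
  | succ a ih =>
    intro o v t hv hvr hta
    have h1 := (hSTC w x s e o j v t μ hvr (by omega) hμ).2 (by omega) (by omega)
    have hv1 : v (!x) - 1 = a := by omega
    rw [hv1] at h1
    obtain ⟨a1, a2, a3⟩ := lpa_aux s μ x o v a (hvr x)
    have hall : ∀ r, (idc s μ x o (up (!x) a v)).2 r ≤ μ := by
      intro r
      by_cases hr : r = x
      · rw [hr]
        exact a2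
      · have hr' : r = !x := by
          revert hr
          cases r <;> cases x <;> decide
        rw [hr', a1]
        omega
    obtain ⟨o', v', b1, b2, b3, b4⟩ := ih (idc s μ x o (up (!x) a v)).1
      (idc s μ x o (up (!x) a v)).2 (t + 1) a1 hall (by omega)
    refine ⟨o', v', ?_, b2, b3, ?_⟩
    · have e1 : t + (a + 1) = t + 1 + a := by omega
      rw [e1]
      exact rch_head _ _ _ _ h1 b1
    · rw [b4, a3]
      push_cast
      ring

end Pool.Agent.Helper30.DI
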